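import Pool.Agent.Lib.MP_25970d_gt.Sorgenfrey

/-!
A coset space `G/H` of a strongly topological gyrogroup (even a topological group) by an
admissible subgyrogroup which is first countable, hence Frechet-Urysohn with an
`ω^ω`-base, but is not metrizable.
-/

set_option autoImplicit false

namespace Pool.Agent.Results.MP_25970d_gt.Counterexample

open Filter Topology Set TopologicalSpace

/-- A gyrogroup structure on `G`. -/
structure Gyrogroup (G : Type) where
  /-- the operation `⊕` -/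
  op : G → G → G
  /-- the identity `0` -/
  zero : G
  /-- the inverse `⊖` -/
  neg : G → G
  /-- the gyrations -/
  gyr : G → G → G ≃ G
  zero_op : ∀ x, op zero x = x
  op_zero : ∀ x, op x zero = x
  zero_unique : ∀ e, (∀ x, op e x = x) → (∀ x, op x e = x) → e = zero
  neg_op : ∀ x, op (neg x) x = zero
  op_neg : ∀ x, op x (neg x) = zero
  neg_unique : ∀ x y, op y x = zero → op x y = zero → y = neg x
  gyr_op : ∀ x y a b, gyr x y (op a b) = op (gyr x y a) (gyr x y b)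
  gyr_assoc : ∀ x y z, op x (op y z) = op (op x y) (gyr x y z)
  gyr_loop : ∀ x y, gyr (op x y) y = gyr x y

/-- `⊕` is jointly continuous and `⊖` is continuous. -/
def IsTopologicalGyrogroup {G : Type} [TopologicalSpace G] (Γ : Gyrogroup G) : Prop :=
  Continuous (fun p : G × G => Γ.op p.1 p.2) ∧ Continuous Γ.neg

/-- `𝒰` is a neighbourhood base at `0` consisting of symmetric sets invariant under all
gyrations. -/
def IsSymmGyrBase {G : Type} [TopologicalSpace G] (Γ : Gyrogroup G) (𝒰 : Set (Set G)) : Prop :=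
  (∀ U ∈ 𝒰, U ∈ 𝓝 Γ.zero) ∧ (∀ W ∈ 𝓝 Γ.zero, ∃ U ∈ 𝒰, U ⊆ W) ∧
    (∀ U ∈ 𝒰, Γ.neg '' U = U) ∧ ∀ U ∈ 𝒰, ∀ x y, Γ.gyr x y '' U = U

/-- `H` is a subgyrogroup. -/
def IsSubgyrogroup {G : Type} (Γ : Gyrogroup G) (H : Set G) : Prop :=
  Γ.zero ∈ H ∧ (∀ a ∈ H, ∀ b ∈ H, Γ.op a b ∈ H) ∧ (∀ a ∈ H, Γ.neg a ∈ H) ∧
    ∀ a ∈ H, ∀ b ∈ H, Γ.gyr a b '' H = H

/-- `H` is an admissible subgyrogroup generated from `𝒰`. -/
def IsAdmissible {G : Type} [TopologicalSpace G] (Γ : Gyrogroup G) (𝒰 : Set (Set G))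
    (H : Set G) : Prop :=
  IsSubgyrogroup Γ H ∧ ∃ U : ℕ → Set G, (∀ n, U n ∈ 𝒰) ∧ (∀ n, IsOpen (U n)) ∧
    (∀ n, image2 Γ.op (U (n + 1)) (image2 Γ.op (U (n + 1)) (U (n + 1))) ⊆ U n) ∧
    H = ⋂ n, U n

/-- The set `G/H` of cosets `a ⊕ H`. -/
def CosetSpace {G : Type} (Γ : Gyrogroup G) (H : Set G) : Type :=
  {C : Set G // ∃ a, C = Γ.op a '' H}

/-- The projection `a ↦ a ⊕ H`. -/
def proj {G : Type} (Γ : Gyrogroup G) (H : Set G) (a : G) : CosetSpace Γ H :=
  ⟨Γ.op a '' H, a, rfl⟩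

/-- The quotient topology on `G/H`. -/
instance cosetTopology {G : Type} [t : TopologicalSpace G] (Γ : Gyrogroup G) (H : Set G) :
    TopologicalSpace (CosetSpace Γ H) :=
  TopologicalSpace.coinduced (proj Γ H) t

/-- Every point has a neighbourhood base indexed by `ω^ω` which is decreasing in the index. -/
def HasOmegaOmegaBase (X : Type) [TopologicalSpace X] : Prop :=
  ∀ x : X, ∃ U : (ℕ → ℕ) → Set X, (∀ α, U α ∈ 𝓝 x) ∧ (∀ W ∈ 𝓝 x, ∃ α, U α ⊆ W) ∧
    ∀ α β, (∀ n, α n ≤ β n) → U β ⊆ U α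

/-- A group is a gyrogroup with trivial gyrations. -/
def ofGroup (G : Type) [Group G] : Gyrogroup G where
  op := fun a b => a * b
  zero := 1
  neg := fun a => a⁻¹
  gyr := fun _ _ => Equiv.refl G
  zero_op := one_mul
  op_zero := mul_one
  zero_unique := fun e h _ => by simpa using h 1
  neg_op := inv_mul_cancel
  op_neg := mul_inv_cancel
  neg_unique := fun _ _ h _ => eq_inv_of_mul_eq_one_left h
  gyr_op := fun _ _ _ _ => rfl
  gyr_assoc := fun x y z => (mul_assoc x y z).symm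
  gyr_loop := fun _ _ => rfl

lemma omegaBase_of_firstCountable (X : Type) [TopologicalSpace X] [FirstCountableTopology X] :
    HasOmegaOmegaBase X := by
  intro x
  obtain ⟨V, hV⟩ := (𝓝 x).exists_antitone_basis
  refine ⟨fun α => V (α 0), fun α => hV.mem _, fun W hW => ?_, fun α β h => hV.antitone (h 0)⟩
  obtain ⟨n, hn⟩ := hV.mem_iff.1 hW
  exact ⟨fun _ => n, hn⟩

open Pool.Agent.Lib.MP_25970d_gt

lemma proj_eq_iff (g h : SG SL) :
    proj (ofGroup (SG SL)) (⋂ n, (K (0 : SL) n : Set (SG SL))) g =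
      proj (ofGroup (SG SL)) (⋂ n, (K (0 : SL) n : Set (SG SL))) h ↔
    act g (base (0 : SL)) = act h (base (0 : SL)) := by
  rw [act_eq_iff]
  constructor
  · intro he n
    have h1 : (fun x => g * x) '' (⋂ n, (K (0 : SL) n : Set (SG SL))) =
      (fun x => h * x) '' (⋂ n, (K (0 : SL) n : Set (SG SL))) := congrArg Subtype.val he
    have h2 : h ∈ (fun x => g * x) '' (⋂ n, (K (0 : SL) n : Set (SG SL))) := by
      rw [h1]
      exact ⟨1, mem_iInter.2 fun n => (K (0 : SL) n).one_mem, mul_one h⟩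
    obtain ⟨k, hk, rfl⟩ := h2
    rw [inv_mul_cancel_left]
    exact mem_iInter.1 hk n
  · intro hK
    apply Subtype.ext
    show (fun x => g * x) '' (⋂ n, (K (0 : SL) n : Set (SG SL))) =
      (fun x => h * x) '' (⋂ n, (K (0 : SL) n : Set (SG SL)))
    ext x
    constructor
    · rintro ⟨k, hk, rfl⟩
      refine ⟨(g⁻¹ * h)⁻¹ * k, mem_iInter.2 fun n =>
        (K (0 : SL) n).mul_mem ((K (0 : SL) n).inv_mem (hK n)) (mem_iInter.1 hk n), ?_⟩
      simp only; group
    · rintro ⟨k, hk, rfl⟩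
      refine ⟨(g⁻¹ * h) * k, mem_iInter.2 fun n =>
        (K (0 : SL) n).mul_mem (hK n) (mem_iInter.1 hk n), ?_⟩
      simp only; group

lemma exists_homeomorph : Nonempty
    (CosetSpace (ofGroup (SG SL)) (⋂ n, (K (0 : SL) n : Set (SG SL))) ≃ₜ CS SL) := by
  have hq := (isOpenQuotientMap_orbit (0 : SL) SL.hclop SL.hmicro SL.htrans).isQuotientMap
  have hp : IsQuotientMap (proj (ofGroup (SG SL)) (⋂ n, (K (0 : SL) n : Set (SG SL)))) :=
    ⟨⟨rfl⟩, fun C => by obtain ⟨C, a, rfl⟩ := C; exact ⟨a, rfl⟩⟩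
  let σ := Function.surjInv hp.surjective
  let τ := Function.surjInv hq.surjective
  have hσ : ∀ g, act (σ (proj _ _ g)) (base (0 : SL)) = act g (base (0 : SL)) := fun g =>
    (proj_eq_iff _ _).1 (Function.surjInv_eq hp.surjective _)
  have hτ : ∀ g, proj (ofGroup (SG SL)) (⋂ n, (K (0 : SL) n : Set (SG SL)))
      (τ (act g (base (0 : SL)))) = proj _ _ g := fun g =>
    (proj_eq_iff _ _).2 (Function.surjInv_eq hq.surjective _)
  refine ⟨⟨⟨fun C => act (σ C) (base 0), fun x => proj _ _ (τ x), ?_, ?_⟩, ?_, ?_⟩⟩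
  · intro C
    simp only
    rw [hτ]
    exact Function.surjInv_eq hp.surjective C
  · intro x
    simp only
    rw [hσ]
    exact Function.surjInv_eq hq.surjective x
  · refine hp.continuous_iff.2 ?_
    exact hq.continuous.congr fun g => (hσ g).symm
  · refine hq.continuous_iff.2 ?_
    exact hp.continuous.congr fun g => (hτ g).symm

theorem result : ∃ (G : Type) (_ : TopologicalSpace G) (Γ : Gyrogroup G) (𝒰 : Set (Set G))
    (H : Set G), T2Space G ∧ IsTopologicalGyrogroup Γ ∧ IsSymmGyrBase Γ 𝒰 ∧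
      IsAdmissible Γ 𝒰 H ∧ (∀ x y z, Γ.gyr x y z = z) ∧
      T2Space (CosetSpace Γ H) ∧ FirstCountableTopology (CosetSpace Γ H) ∧
      FrechetUrysohnSpace (CosetSpace Γ H) ∧ HasOmegaOmegaBase (CosetSpace Γ H) ∧
      ¬ MetrizableSpace (CosetSpace Γ H) := by
  obtain ⟨e⟩ := exists_homeomorph
  have hfc : FirstCountableTopology
      (CosetSpace (ofGroup (SG SL)) (⋂ n, (K (0 : SL) n : Set (SG SL)))) :=
    e.isInducing.firstCountableTopology
  refine ⟨SG SL, inferInstance, ofGroup _, {U | U ∈ 𝓝 (1 : SG SL) ∧ U⁻¹ = U},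
    ⋂ n, (K (0 : SL) n : Set (SG SL)), inferInstance, ⟨continuous_mul, continuous_inv⟩,
    ⟨fun U hU => hU.1, fun W hW => ?_, fun U hU => ?_, fun U _ x y => image_id U⟩,
    ⟨⟨?_, ?_, ?_, fun _ _ _ _ => image_id _⟩, fun n => K (0 : SL) n, ?_, isOpen_K 0, ?_, rfl⟩,
    fun _ _ _ => rfl, e.symm.t2Space, hfc, inferInstance, omegaBase_of_firstCountable _,
    fun h => SL.not_metrizable_CS e.symm.isEmbedding.metrizableSpace⟩
  · refine ⟨W ∩ W⁻¹, ⟨inter_mem hW (inv_mem_nhds_one _ hW), ?_⟩, inter_subset_left⟩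
    rw [inter_inv, inv_inv, inter_comm]
  · show (fun a : SG SL => a⁻¹) '' U = U
    rw [image_inv_eq_inv]
    exact hU.2
  · exact mem_iInter.2 fun n => (K (0 : SL) n).one_mem
  · exact fun a ha b hb => mem_iInter.2 fun n =>
      (K (0 : SL) n).mul_mem (mem_iInter.1 ha n) (mem_iInter.1 hb n)
  · exact fun a ha => mem_iInter.2 fun n => (K (0 : SL) n).inv_mem (mem_iInter.1 ha n)
  · exact fun n => ⟨(isOpen_K 0 n).mem_nhds (K (0 : SL) n).one_mem, inv_coe_set⟩
  · rintro n _ ⟨a, ha, _, ⟨b, hb, c, hc, rfl⟩, rfl⟩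
    exact K_anti 0 n ((K (0 : SL) (n + 1)).mul_mem ha ((K (0 : SL) (n + 1)).mul_mem hb hc))

end Pool.Agent.Results.MP_25970d_gt.Counterexample
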